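import Pool.Agent.H70.PT.All

/-!
# De Mol's tag system S₂ on products of blocks: a phase transition
-/

set_option autoImplicit false

open List

namespace Pool.Agent.Results.MP_c95a35_lc.BlockWords

open Pool.Agent.H68.TG Pool.Agent.H75.RW Pool.Agent.H70.PT

/-- `S₂` does not stop during the first `k` passes on `w` -/
def Runs (k : ℕ) (w : List (Fin 3)) : Prop :=
  ∀ i < k, ∀ j ≤ ((ps^[i] w).length + 1) / 2, 2 ≤ (step^[j] (ps^[i] w)).length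

/-- the length after `t` double passes on the word `0^(X 0) (12)^(Y 0) 0^(X 1) (12)^(Y 1) ...` -/
def len {r : ℕ} (t : ℕ) (X Y : Fin r → ℕ) : ℝ := ((ps^[2 * t] (wd X Y)).length : ℕ)

/-- the number of the pairs of vectors `X`, `Y` of `r` numbers below `2 ^ m` with the property `p` -/
noncomputable def num (r m : ℕ) (p : (Fin r → ℕ) → (Fin r → ℕ) → Prop) : ℝ :=
  ({q : (Fin r → Fin (2 ^ m)) × (Fin r → Fin (2 ^ m)) |
    p (fun i => q.1 i) (fun i => q.2 i)}.ncard : ℕ)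

theorem num_eq (r m : ℕ) (p : (Fin r → ℕ) → (Fin r → ℕ) → Prop) : num r m p = NN r m p := rfl

theorem part1 (ε c c' : ℝ) (n m r : ℕ) (hc : c' ≤ c)
    (h : ∃ β : ℝ, IsGreatest {b : ℝ | 1 / 2 ≤ b ∧ b ≤ 3 / 4 ∧ ka b ≤ Real.logb 2 r / n} β ∧
      NN r m (fun X Y => ¬ Good ε β n m r X Y) ≤ 2 ^ (-(c * n)) * (4 ^ m) ^ r) :
    num r m (fun X Y => ¬ ((r : ℝ) * 2 ^ m * 2 ^ ((mu (be n r) - ε) * n) ≤ len n X Y ∧
      len n X Y ≤ (r : ℝ) * 2 ^ m * 2 ^ ((mu (be n r) + ε) * n) ∧ Runs (2 * n) (wd X Y))) ≤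
        2 ^ (-(c' * n)) * (4 ^ m) ^ r := by
  obtain ⟨β, hβ, hN⟩ := h
  rw [be_eq hβ, num_eq]
  have hpow : (2 : ℝ) ^ (-(c * n)) ≤ 2 ^ (-(c' * n)) := by
    refine Real.rpow_le_rpow_of_exponent_le (by norm_num) (neg_le_neg ?_)
    exact mul_le_mul_of_nonneg_right hc (Nat.cast_nonneg n)
  calc _ ≤ NN r m (fun X Y => ¬ Good ε β n m r X Y) := by
        apply NN_mono
        intro X Y hg hg'
        exact hg ⟨hg'.1, hg'.2.1, hg'.2.2⟩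
    _ ≤ 2 ^ (-(c * n)) * (4 ^ m) ^ r := hN
    _ ≤ _ := mul_le_mul_of_nonneg_right hpow (by positivity)

theorem part2 (ε c c' : ℝ) (n m r : ℕ) (hc : c' ≤ c) (X Y : Fin r → ℕ) (z : Fin r)
    (h : (({x : ℕ | x < 2 ^ m ∧
      ¬ (((ps^[2 * n] (wd (Function.update X z x) Y)).length : ℝ) ≤
          (r : ℝ) * 2 ^ m * 2 ^ ((mu (be n r) + ε) * n) ∧
        ∀ i < 2 * n, ∀ j ≤ ((ps^[i] (wd (Function.update X z x) Y)).length + 1) / 2,
          2 ≤ (step^[j] (ps^[i] (wd (Function.update X z x) Y))).length)}.ncard : ℕ) : ℝ) ≤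
      2 ^ (-(c * n)) * 2 ^ m) :
    (({x : ℕ | x < 2 ^ m ∧ ¬ (len n (Function.update X z x) Y ≤
      (r : ℝ) * 2 ^ m * 2 ^ ((mu (be n r) + ε) * n) ∧
        Runs (2 * n) (wd (Function.update X z x) Y))}.ncard : ℕ) : ℝ) ≤
      2 ^ (-(c' * n)) * 2 ^ m := by
  have hpow : (2 : ℝ) ^ (-(c * n)) ≤ 2 ^ (-(c' * n)) := by
    refine Real.rpow_le_rpow_of_exponent_le (by norm_num) (neg_le_neg ?_)
    exact mul_le_mul_of_nonneg_right hc (Nat.cast_nonneg n)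
  refine le_trans ?_ (h.trans (mul_le_mul_of_nonneg_right hpow (by positivity)))
  refine Nat.cast_le.mpr (Set.ncard_le_ncard ?_
    ((Set.finite_lt_nat (2 ^ m)).subset fun x hx => hx.1))
  intro x hx
  refine ⟨hx.1, fun hg => hx.2 ⟨hg.1, hg.2⟩⟩

theorem part3 (ε c c' : ℝ) (n m r : ℕ) (hc : c' ≤ c)
    (h : NN r m (fun X Y => ¬ ((∀ t ≤ n,
      (1 - ε) * (wd X Y).length ≤ (ps^[2 * t] (wd X Y)).length ∧
      ((ps^[2 * t] (wd X Y)).length : ℝ) ≤ (1 + ε) * (wd X Y).length) ∧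
    ∀ j : ℕ, (j : ℝ) ≤ (1 - ε) * n * (wd X Y).length / 2 → 2 ≤ (step^[j] (wd X Y)).length)) ≤
    2 ^ (-(c * n)) * (4 ^ m) ^ r) :
    num r m (fun X Y => ¬ ((∀ t ≤ n, |len t X Y - (wd X Y).length| ≤ ε * (wd X Y).length) ∧
      ∀ j : ℕ, (j : ℝ) ≤ (1 - ε) * n * (wd X Y).length / 2 →
        2 ≤ (step^[j] (wd X Y)).length)) ≤ 2 ^ (-(c' * n)) * (4 ^ m) ^ r := by
  rw [num_eq]
  have hpow : (2 : ℝ) ^ (-(c * n)) ≤ 2 ^ (-(c' * n)) := by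
    refine Real.rpow_le_rpow_of_exponent_le (by norm_num) (neg_le_neg ?_)
    exact mul_le_mul_of_nonneg_right hc (Nat.cast_nonneg n)
  refine le_trans ?_ (h.trans (mul_le_mul_of_nonneg_right hpow (by positivity)))
  apply NN_mono
  intro X Y hg hg'
  refine hg ⟨fun t ht => ?_, hg'.2⟩
  have h5 := hg'.1 t ht
  unfold len
  rw [abs_le]
  constructor <;> linarith [h5.1, h5.2]

/-- `mu b = H b + b log₂ 3 - 2`, where `H` is the entropy in bits; `be n r` is the largest `b` in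
`[1/2, 3/4]` with `1 - H b ≤ log₂ r / n`. -/
theorem result :
    (∀ ε > (0 : ℝ), ∃ c > (0 : ℝ), ∃ n₀ : ℕ, ∀ n ≥ n₀, ∀ m r : ℕ, (n : ℝ) ≤ (1 - ε) * m → 1 ≤ r →
      num r m (fun X Y => ¬ ((r : ℝ) * 2 ^ m * 2 ^ ((mu (be n r) - ε) * n) ≤ len n X Y ∧
        len n X Y ≤ (r : ℝ) * 2 ^ m * 2 ^ ((mu (be n r) + ε) * n) ∧ Runs (2 * n) (wd X Y))) ≤
          2 ^ (-(c * n)) * (4 ^ m) ^ r ∧
      (∀ X Y : Fin r → ℕ, (∀ i, X i < 2 ^ m ∧ Y i < 2 ^ m) → ∀ z : Fin r, (z : ℕ) = 0 →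
        (({x : ℕ | x < 2 ^ m ∧ ¬ (len n (Function.update X z x) Y ≤
          (r : ℝ) * 2 ^ m * 2 ^ ((mu (be n r) + ε) * n) ∧
            Runs (2 * n) (wd (Function.update X z x) Y))}.ncard : ℕ) : ℝ) ≤
          2 ^ (-(c * n)) * 2 ^ m) ∧
      ((2 : ℝ) ^ ((3 / 4 * Real.logb 2 3 - 1 + ε) * n) ≤ r →
        num r m (fun X Y => ¬ ((∀ t ≤ n, |len t X Y - (wd X Y).length| ≤ ε * (wd X Y).length) ∧
          ∀ j : ℕ, (j : ℝ) ≤ (1 - ε) * n * (wd X Y).length / 2 →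
            2 ≤ (step^[j] (wd X Y)).length)) ≤ 2 ^ (-(c * n)) * (4 ^ m) ^ r)) ∧
    (∀ n r : ℕ, 1 ≤ r →
      IsGreatest {b : ℝ | 1 / 2 ≤ b ∧ b ≤ 3 / 4 ∧ 1 - H b ≤ Real.logb 2 r / n} (be n r)) ∧
    1 - H (3 / 4) = 3 / 4 * Real.logb 2 3 - 1 ∧ mu (3 / 4) = 0 ∧
    mu (1 / 2) = Real.logb 2 3 / 2 - 1 ∧ Continuous mu ∧
    StrictMonoOn mu (Set.Icc (1 / 2) (3 / 4)) := by
  obtain ⟨e1, e2, e3, e4, e5, e6, e7, e8⟩ := x_ENT
  refine ⟨?_, ?_, e2, e3, e4, e6, e8⟩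
  · intro ε hε
    obtain ⟨c1, hc1, n1, h1⟩ := x_FIN ε hε
    obtain ⟨c2, hc2, n2, h2⟩ := x_FIB ε hε
    obtain ⟨c3, hc3, n3, h3⟩ := x_LLN ε hε ε hε
    refine ⟨min c1 (min c2 c3), lt_min hc1 (lt_min hc2 hc3), max n1 (max n2 n3), ?_⟩
    intro n hn m r hnm hr
    have hn1 : n1 ≤ n := le_trans (le_max_left _ _) hn
    have hn2 : n2 ≤ n := le_trans (le_trans (le_max_left _ _) (le_max_right _ _)) hn
    have hn3 : n3 ≤ n := le_trans (le_trans (le_max_right _ _) (le_max_right _ _)) hn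
    refine ⟨part1 ε c1 _ n m r (min_le_left _ _) (h1 n hn1 m r hnm hr), ?_, ?_⟩
    · intro X Y hXY z hz
      exact part2 ε c2 _ n m r ((min_le_right _ _).trans (min_le_left _ _)) X Y z
        (h2 n hn2 m r hnm hr X Y z hz hXY)
    · intro hr2
      rw [← e2] at hr2
      exact part3 ε c3 _ n m r ((min_le_right _ _).trans (min_le_right _ _))
        (h3 n hn3 m r hnm hr2)
  · intro n r hr
    obtain ⟨β, hβ⟩ := x_GRE (Real.logb 2 r / n)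
      (div_nonneg (Real.logb_nonneg (by norm_num) (by exact_mod_cast hr)) (Nat.cast_nonneg n))
    rw [be_eq hβ]
    exact hβ

end Pool.Agent.Results.MP_c95a35_lc.BlockWords
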