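import Pool.Agent.H70.TGS.All

/-!
# De Mol's tag system S₂: exponentially many cycles which have nothing to do with the 3x+1 map
-/

set_option autoImplicit false

open List

namespace Pool.Agent.Results.MP_c95a35_lc.CyclesBeyondCollatz

open Pool.Agent.H68.TG Pool.Agent.H70.TGS

/-- The words `cyw q` (`q` a finite sequence of bits of length `m`) of length `16 m + 9` lie on cycles
of `S₂` of length dividing `60 m + 40`, on which it never stops and which contain no word
`0^x (12)^y` or `2 (12)^y`; there are at least `2^m / (60 m + 40)` such cycles. For at least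
`N^(1/55)` of the `n < N` (`N` large) the computation on `0^n 12 0^6` never stops and never reaches a
word `0^x (12)^y` or `2 (12)^y`. -/
theorem result :
    (∀ q : List Bool, (cyw q).length = 16 * q.length + 9 ∧
      step^[60 * q.length + 40] (cyw q) = cyw q ∧
      ∀ k, 2 ≤ (step^[k] (cyw q)).length ∧ ¬ Two (step^[k] (cyw q))) ∧
    (∀ m : ℕ, ({O : Set (List (Fin 3)) | ∃ w : List (Fin 3), w.length = 16 * m + 9 ∧
        step^[60 * m + 40] w = w ∧ (∀ k, 2 ≤ (step^[k] w).length ∧ ¬ Two (step^[k] w)) ∧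
        O = Set.range fun k => step^[k] w}).Finite ∧
      2 ^ m ≤ (60 * m + 40) * ({O : Set (List (Fin 3)) | ∃ w : List (Fin 3),
        w.length = 16 * m + 9 ∧ step^[60 * m + 40] w = w ∧
        (∀ k, 2 ≤ (step^[k] w).length ∧ ¬ Two (step^[k] w)) ∧
        O = Set.range fun k => step^[k] w}).ncard) ∧
    (∃ N0 : ℕ, ∀ N ≥ N0, (N : ℝ) ^ (1 / 55 : ℝ) ≤ (({n : ℕ | n < N ∧
      ∀ k, 2 ≤ (step^[k] (replicate n 0 ++ [1, 2] ++ replicate 6 0)).length ∧
        ¬ Two (step^[k] (replicate n 0 ++ [1, 2] ++ replicate 6 0))}.ncard : ℕ) : ℝ)) := by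
  obtain ⟨-, h2, h3, -⟩ := y_MA2
  refine ⟨?_, fun m => y_NCY m, h3⟩
  intro q
  refine ⟨?_, (h2 q).1, (h2 q).2⟩
  have h : (q.flatMap blk).length = 16 * q.length := by
    induction q with
    | nil => rfl
    | cons c q ih =>
      have hb : (blk c).length = 16 := by cases c <;> rfl
      rw [flatMap_cons, length_append, ih, hb, length_cons]
      ring
  unfold cyw
  rw [length_append, h]
  rfl

end Pool.Agent.Results.MP_c95a35_lc.CyclesBeyondCollatz
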