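import Pool.Agent.H68.TG.All

/-!
# De Mol's tag system S₂ and the `3x+1` problem
-/

set_option autoImplicit false

open List

namespace Pool.Agent.Results.MP_c95a35_lc.GenericReduction

open Pool.Agent.H68.TG

/-- On the words with at most two runs the halting problem of `S₂` is the `3x+1` problem. There is a
partial recursive function `r` which reduces the halting problem of `S₂` to the `3x+1` problem on the
set of all words whose computation reaches a word `0^x (12)^y` or `2 (12)^y`, and for all words `p`,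
`v` and `u = 0` or `u = 12` all but `1000 (|p| + |v| + 1) N^(299/300)` of the words `p u^n v`,
`n < N`, reach such a word, and one of length at most `N^(19/20)`. -/
theorem result :
    (∀ x y : ℕ, (Stops (replicate x 0 ++ dd y) ↔ Reach (x + 2 * y)) ∧
      (Stops (dd y ++ replicate x 0) ↔ Reach (x + y))) ∧
    (∃ r : List (Fin 3) →. ℕ, Partrec r ∧ (∀ w m, m ∈ r w → (Stops w ↔ Reach m)) ∧
      ∀ w, (r w).Dom ↔ ∃ k, Two (step^[k] w)) ∧
    ∀ u : ℕ → List (Fin 3), (u = fun n => replicate n 0) ∨ u = dd →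
      ∀ (p v : List (Fin 3)) (N : ℕ),
        (({n : ℕ | n < N ∧ ¬ ∃ k, Two (step^[k] (p ++ u n ++ v)) ∧
          ((step^[k] (p ++ u n ++ v)).length : ℝ) ≤ (N : ℝ) ^ (19 / 20 : ℝ)}.ncard : ℕ) : ℝ) ≤
            1000 * (p.length + v.length + 1) * (N : ℝ) ^ (299 / 300 : ℝ) := by
  obtain ⟨h1, h2, h3, h4, h5⟩ := x_ALL
  refine ⟨fun x y => ⟨?_, h2 x y⟩, h3, ?_⟩
  · have h6 := h1 (replicate x 0 ++ dd y) ⟨x, y, Or.inl rfl⟩
    have h7 : (replicate x 0 ++ dd y : List (Fin 3)).length = x + 2 * y := by
      unfold dd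
      simp [mul_comm]
    rwa [h7] at h6
  · rintro u (rfl | rfl) p v N
    · exact h4 p v N
    · exact h5 p v N

end Pool.Agent.Results.MP_c95a35_lc.GenericReduction
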