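import Pool.Agent.H75.RW.All

/-!
# De Mol's tag system S₂ on random words
-/

set_option autoImplicit false

open List

namespace Pool.Agent.Results.MP_c95a35_lc.RandomWords

open Pool.Agent.H68.TG Pool.Agent.H75.RW

/-- For all large `N` there is a set `K` of at most `exp (N ^ (199/200))` words such that all but
at most `N ^ (-1/5) * 3 ^ N` of the `3 ^ N` words `w` of length `N` have the following property,
`T = ⌊(log N) / 3⌋`: there are times `(N + 1) / 2 = k 0, k 1, ..., k T` with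
`|k (i + 1) - k i - N / 2| ≤ N ^ (9/10)` such that for all `i ≤ T` the word after `k i` steps of
`S₂` has length `N ± N ^ (9/10)` and is a product of at most `N exp (-i / 60)` blocks `0^x (12)^y`
(or such a product without its first letter); `k T ≥ N (log N) / 7`; the computation has not
stopped at the time `k T`; and the word at the time `k T` is in `K`. -/
theorem result : ∃ N₀ : ℕ, ∀ N ≥ N₀, ∃ K : Finset (List (Fin 3)),
    (K.card : ℝ) ≤ Real.exp ((N : ℝ) ^ (199 / 200 : ℝ)) ∧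
    (({w : List (Fin 3) | w.length = N ∧ ¬ ∃ k : ℕ → ℕ, k 0 = (N + 1) / 2 ∧
      (∀ i < ⌊Real.log N / 3⌋₊, |(k (i + 1) : ℝ) - k i - N / 2| ≤ (N : ℝ) ^ (9 / 10 : ℝ)) ∧
      (∀ i ≤ ⌊Real.log N / 3⌋₊, |((step^[k i] w).length : ℝ) - N| ≤ (N : ℝ) ^ (9 / 10 : ℝ) ∧
        Blk (N * Real.exp (-(i : ℝ) / 60)) (step^[k i] w)) ∧
      (N : ℝ) * Real.log N / 7 ≤ k ⌊Real.log N / 3⌋₊ ∧
      (∀ j ≤ k ⌊Real.log N / 3⌋₊, 2 ≤ (step^[j] w).length) ∧
      step^[k ⌊Real.log N / 3⌋₊] w ∈ K}.ncard : ℕ) : ℝ) ≤ (N : ℝ) ^ (-(1 / 5) : ℝ) * 3 ^ N :=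
  x_FIN

end Pool.Agent.Results.MP_c95a35_lc.RandomWords
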